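import Mathlib

/-!
# Tools for lower bounds of the constant `C₁(d)` in the uniform height bound

Heights of polynomials, separability, pencils of polynomials and the comparison of exponents.
-/

set_option autoImplicit false

open Polynomial

namespace Pool.Agent.H574.HL

/-- the largest absolute value of a coefficient of `f` -/
def height (f : ℤ[X]) : ℕ := f.support.sup (fun i => (f.coeff i).natAbs)

lemma height_eq {f : ℤ[X]} {M n : ℕ} (h1 : ∀ i, (f.coeff i).natAbs ≤ M)
    (h2 : (f.coeff n).natAbs = M) (hM : M ≠ 0) : height f = M := by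
  apply le_antisymm
  · exact Finset.sup_le fun i _ => h1 i
  · have hn : n ∈ f.support := by
      rw [mem_support_iff]
      intro h
      rw [h] at h2
      exact hM h2.symm
    have := Finset.le_sup (f := fun i => (f.coeff i).natAbs) hn
    simp only [h2] at this
    exact this

/-- separability, from the absence of a common root in `ℂ` -/
lemma separable_of {f : ℤ[X]} (h : ∀ α : ℂ, aeval α f = 0 → aeval α (derivative f) ≠ 0) :
    (f.map (Int.castRingHom ℚ)).Separable := by
  unfold Separable
  refine (Polynomial.isCoprime_iff_aeval_ne_zero_of_isAlgClosed (k := ℚ) ℂ _ _).2 ?_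
  intro α
  have e1 : aeval α (f.map (Int.castRingHom ℚ)) = aeval α f := by
    rw [aeval_def, aeval_def, eval₂_map]
    congr 1
  have e2 : aeval α (derivative (f.map (Int.castRingHom ℚ))) = aeval α (derivative f) := by
    rw [derivative_map, aeval_def, aeval_def, eval₂_map]
    congr 1
  rw [e1, e2]
  by_cases h0 : aeval α f = 0
  · exact Or.inr (h α h0)
  · exact Or.inl h0

/-- in a pencil `A + t B` without base points only finitely many members have a double root -/
lemma finite_bad {A B : ℂ[X]} (hAB : ∀ α, B.eval α = 0 → A.eval α ≠ 0) {c : ℂ}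
    (hW : (A * derivative B - derivative A * B).eval c ≠ 0) :
    {t : ℂ | ∃ α, A.eval α + t * B.eval α = 0 ∧
      (derivative A).eval α + t * (derivative B).eval α = 0}.Finite := by
  have hW0 : A * derivative B - derivative A * B ≠ 0 := by
    rintro h
    rw [h, eval_zero] at hW
    exact hW rfl
  refine ((A * derivative B - derivative A * B).rootSet_finite ℂ |>.image
    (fun α => -(A.eval α) / B.eval α)).subset ?_
  rintro t ⟨α, h1, h2⟩
  have hB : B.eval α ≠ 0 := by
    intro h
    rw [h, mul_zero, add_zero] at h1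
    exact hAB α h h1
  refine ⟨α, ?_, ?_⟩
  · rw [mem_rootSet]
    refine ⟨hW0, ?_⟩
    rw [coe_aeval_eq_eval, eval_sub, eval_mul, eval_mul]
    linear_combination ((derivative B).eval α) * h1 - (B.eval α) * h2
  · show -(A.eval α) / B.eval α = t
    rw [div_eq_iff hB]
    linear_combination -h1

/-- separability of the members of a pencil outside the finite exceptional set -/
lemma separable_of_notMem {A B : ℂ[X]} {t : ℂ} {f : ℤ[X]}
    (hf : f.map (Int.castRingHom ℂ) = A + C t * B)
    (h : t ∉ {t : ℂ | ∃ α, A.eval α + t * B.eval α = 0 ∧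
      (derivative A).eval α + t * (derivative B).eval α = 0}) :
    (f.map (Int.castRingHom ℚ)).Separable := by
  apply separable_of
  intro α h1 h2
  apply h
  have e : ∀ g : ℤ[X], aeval α g = (g.map (Int.castRingHom ℂ)).eval α := by
    intro g
    rw [aeval_def, eval_map]
    rfl
  rw [e] at h1 h2
  rw [← derivative_map, hf] at h2
  rw [hf] at h1
  refine ⟨α, ?_, ?_⟩
  · rw [eval_add, eval_mul, eval_C] at h1
    exact h1
  · rw [derivative_add, derivative_C_mul, eval_add, eval_mul, eval_C] at h2
    exact h2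

/-- curves of degree `d` with integral points of size a constant times `M ^ e`, of arbitrarily
large height `M` -/
def Family (d e K : ℕ) : Prop :=
  ∀ N : ℕ, ∃ g : ℤ[X], g.natDegree = d ∧ (g.map (Int.castRingHom ℚ)).Separable ∧
    N ≤ height g ∧ ∃ x y : ℤ, y ^ 2 = g.eval x ∧ (height g : ℤ) ^ e ≤ K * x

/-- a family of large points bounds the constant -/
lemma le_of_family {d e K : ℕ} (hK0 : 0 < K) (main : Family d e K) (C₁ C₂ : ℝ)
    (h : ∀ f : ℤ[X], f.natDegree = d → (f.map (Int.castRingHom ℚ)).Separable →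
      ∀ x y : ℤ, y ^ 2 = f.eval x →
        Real.log (max |(x : ℝ)| 1) ≤ C₁ * Real.log (max (height f : ℝ) 1) + C₂) :
    (e : ℝ) ≤ C₁ := by
  by_contra hC
  push Not at hC
  have hKR : (0 : ℝ) < K := by exact_mod_cast hK0
  obtain ⟨N, hN⟩ := exists_nat_gt (Real.exp ((C₂ + Real.log K) / (e - C₁)))
  obtain ⟨g, hfd, hfs, hfK, x, y, hxy, hx⟩ := main (N + 1)
  have h1 := h g hfd hfs x y hxy
  have hM : (1 : ℝ) ≤ height g := by
    have : 1 ≤ height g := by omega
    exact_mod_cast this
  have hM0 : (0 : ℝ) < height g := by linarith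
  have hx' : (height g : ℝ) ^ e ≤ (K : ℝ) * x := by exact_mod_cast hx
  have hx0 : (0 : ℝ) < x := by
    have : (0 : ℝ) < (height g : ℝ) ^ e := by positivity
    by_contra hx1
    push Not at hx1
    have : (K : ℝ) * x ≤ 0 := by nlinarith
    linarith
  have h2 : e * Real.log (height g) ≤ Real.log x + Real.log K := by
    have h3 : Real.log ((height g : ℝ) ^ e) ≤ Real.log ((K : ℝ) * x) :=
      Real.log_le_log (by positivity) hx'
    rw [Real.log_mul hKR.ne' hx0.ne', Real.log_pow] at h3
    linarith
  have h4 : Real.log x ≤ Real.log (max |(x : ℝ)| 1) :=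
    Real.log_le_log hx0 (le_max_of_le_left (le_abs_self _))
  rw [max_eq_left hM] at h1
  have h5 : (e - C₁) * Real.log (height g) ≤ C₂ + Real.log K := by nlinarith
  have h6 : Real.log (height g) ≤ (C₂ + Real.log K) / (e - C₁) := by
    rw [le_div_iff₀ (by linarith)]
    linarith
  have h7 : (height g : ℝ) ≤ Real.exp ((C₂ + Real.log K) / (e - C₁)) :=
    (Real.log_le_iff_le_exp hM0).1 h6
  have h8 : (N : ℝ) + 1 ≤ height g := by exact_mod_cast hfK
  linarith

/-- solutions of Pell's equation `b ^ 2 = n a ^ 2 + 1` with `a` arbitrarily large -/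
lemma pell {n : ℕ} {a₀ b₀ : ℕ} (h0 : b₀ ^ 2 = n * a₀ ^ 2 + 1) (ha : 1 ≤ a₀) (N : ℕ) :
    ∃ a b : ℕ, b ^ 2 = n * a ^ 2 + 1 ∧ N < a := by
  have hb : 1 ≤ b₀ := by
    rcases Nat.eq_zero_or_pos b₀ with h | h
    · rw [h] at h0
      simp at h0
    · exact h
  induction N with
  | zero => exact ⟨a₀, b₀, h0, ha⟩
  | succ N ih =>
    obtain ⟨a, b, h1, h2⟩ := ih
    refine ⟨b₀ * a + a₀ * b, b₀ * b + n * a₀ * a, ?_, ?_⟩
    · zify at h0 h1 ⊢
      linear_combination ((b : ℤ) ^ 2 - n * a ^ 2) * h0 + h1
    · have hb' : 1 ≤ b := by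
        rcases Nat.eq_zero_or_pos b with h | h
        · rw [h] at h1
          simp at h1
        · exact h
      nlinarith

end Pool.Agent.H574.HL
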