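import Pool.Agent.H574.HL.Basic

/-!
# Cubics with an integral point of size `M ^ 7`

The cubic `(2 j - 1) x ^ 3 + 7 x - 20 j` takes at
`x = j (27648 j ^ 6 - 27648 j ^ 5 + 6912 j ^ 4 + 2240 j ^ 3 - 1120 j ^ 2 + 35)` the value
`j (6 j + 1) Q(j) ^ 2`, which is a square if `j = a ^ 2` and `6 j + 1 = b ^ 2`.
-/

set_option autoImplicit false

open Polynomial

namespace Pool.Agent.H574.HL

/-- the cubic `(2 j - 1) x ^ 3 + 7 x - 20 j` -/
noncomputable def cubic (j : ℤ) : ℤ[X] := C (2 * j - 1) * X ^ 3 + C 7 * X + C (-20 * j)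

/-- the abscissa of the point on the cubic -/
def cubicX (j : ℤ) : ℤ :=
  j * (27648 * j ^ 6 - 27648 * j ^ 5 + 6912 * j ^ 4 + 2240 * j ^ 3 - 1120 * j ^ 2 + 35)

/-- the polynomial whose square divides the value -/
def cubicQ (j : ℤ) : ℤ :=
  2654208 * j ^ 10 - 4866048 * j ^ 9 + 3317760 * j ^ 8 - 697344 * j ^ 7 - 286720 * j ^ 6 +
    173824 * j ^ 5 - 15904 * j ^ 4 - 7440 * j ^ 3 + 1488 * j ^ 2 + 45 * j - 15

lemma cubic_identity (j : ℤ) :
    (2 * j - 1) * cubicX j ^ 3 + 7 * cubicX j - 20 * j = j * (6 * j + 1) * cubicQ j ^ 2 := by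
  unfold cubicX cubicQ
  ring

lemma eval_cubic (j x : ℤ) : (cubic j).eval x = (2 * j - 1) * x ^ 3 + 7 * x - 20 * j := by
  unfold cubic
  simp only [eval_add, eval_mul, eval_pow, eval_C, eval_X]
  ring

lemma coeff_cubic (j : ℤ) (n : ℕ) : (cubic j).coeff n =
    (if n = 3 then 2 * j - 1 else 0) + (if n = 1 then 7 else 0) +
      (if n = 0 then -20 * j else 0) := by
  unfold cubic
  rw [coeff_add, coeff_add, coeff_C_mul, coeff_C_mul, coeff_X_pow, coeff_X, coeff_C]
  simp only [mul_ite, mul_one, mul_zero, eq_comm (a := 1) (b := n)]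

lemma natDegree_cubic' {j : ℤ} : (cubic j).natDegree = 3 := by
  apply natDegree_eq_of_le_of_coeff_ne_zero
  · rw [natDegree_le_iff_coeff_eq_zero]
    intro n hn
    rw [coeff_cubic, if_neg (by omega), if_neg (by omega), if_neg (by omega)]
    rfl
  · rw [coeff_cubic, if_pos rfl, if_neg (by omega), if_neg (by omega)]
    omega

lemma height_cubic {j : ℕ} (hj : 1 ≤ j) : height (cubic j) = 20 * j := by
  refine height_eq (n := 0) ?_ ?_ (by omega)
  · intro i
    rw [coeff_cubic]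
    split_ifs <;> omega
  · rw [coeff_cubic]
    simp only [if_true]
    norm_num
    omega

lemma separable_cubic {j : ℕ} (hj : 1 ≤ j) :
    ((cubic j).map (Int.castRingHom ℚ)).Separable := by
  apply separable_of
  intro α h1 h2
  have e1 : aeval α (cubic j) = (2 * (j : ℂ) - 1) * α ^ 3 + 7 * α - 20 * j := by
    unfold cubic
    simp [map_ofNat]
    ring
  have e2 : aeval α (derivative (cubic j)) = 3 * (2 * (j : ℂ) - 1) * α ^ 2 + 7 := by
    unfold cubic
    rw [derivative_add, derivative_add, derivative_C_mul_X_pow, derivative_C_mul_X, derivative_C]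
    simp only [map_add, map_mul, map_pow, aeval_C, aeval_X, map_zero]
    simp only [algebraMap_int_eq, eq_intCast]
    push_cast
    ring
  rw [e1] at h1
  rw [e2] at h2
  have h3 : 14 * α = 60 * (j : ℂ) := by
    linear_combination 3 * h1 - α * h2
  have h4 : (2 * (j : ℂ) - 1) * 10800 * (j : ℂ) ^ 2 + 1372 = 0 := by
    linear_combination 196 * h2 - 3 * (2 * (j : ℂ) - 1) * (14 * α + 60 * j) * h3
  have h5 : (2 * (j : ℤ) - 1) * 10800 * (j : ℤ) ^ 2 + 1372 = 0 := by
    exact_mod_cast h4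
  have h6 : (1 : ℤ) ≤ j := by exact_mod_cast hj
  have h7 : 0 ≤ (2 * (j : ℤ) - 1) * 10800 * (j : ℤ) ^ 2 := by
    have : 0 ≤ 2 * (j : ℤ) - 1 := by linarith
    positivity
  linarith

/-- the point is large -/
lemma large_cubic {j : ℤ} (hj : 2 ≤ j) : (20 * j) ^ 7 ≤ 100000 * cubicX j := by
  have h1 : 13824 * j ^ 7 ≤ cubicX j := by
    unfold cubicX
    have h2 : 0 ≤ 13824 * j ^ 6 * (j - 2) := by
      have : 0 ≤ j - 2 := by linarith
      positivity
    have h3 : 0 ≤ 6912 * j ^ 5 + 1120 * j ^ 4 + 1120 * j ^ 3 * (j - 1) + 35 * j := by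
      have : 0 ≤ j - 1 := by linarith
      positivity
    nlinarith
  have h2 : (20 * j) ^ 7 = 1280000000 * j ^ 7 := by ring
  have h3 : 0 ≤ j ^ 7 := by positivity
  rw [h2]
  linarith

lemma point_cubic {a b : ℤ} (h : b ^ 2 = 6 * a ^ 2 + 1) :
    (a * b * cubicQ (a ^ 2)) ^ 2 = (cubic (a ^ 2)).eval (cubicX (a ^ 2)) := by
  rw [eval_cubic, cubic_identity]
  linear_combination a ^ 2 * cubicQ (a ^ 2) ^ 2 * h

/-- the family of cubics -/
lemma family_cubic : Family 3 7 100000 := by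
  intro N
  obtain ⟨a, b, h1, h2⟩ := pell (n := 6) (a₀ := 2) (b₀ := 5) (by norm_num) (by norm_num) (N + 1)
  have ha : 2 ≤ a ^ 2 := by nlinarith
  have e : (a : ℤ) ^ 2 = ((a ^ 2 : ℕ) : ℤ) := by push_cast; rfl
  refine ⟨cubic ((a ^ 2 : ℕ) : ℤ), natDegree_cubic', separable_cubic (by omega), ?_,
    cubicX ((a ^ 2 : ℕ) : ℤ), a * b * cubicQ ((a ^ 2 : ℕ) : ℤ), ?_, ?_⟩
  · rw [height_cubic (by omega)]
    nlinarith
  · rw [← e]
    exact point_cubic (by exact_mod_cast h1)
  · rw [height_cubic (by omega)]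
    push_cast
    refine large_cubic ?_
    exact_mod_cast ha

end Pool.Agent.H574.HL
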