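import Pool.Agent.H574.HL.Basic

/-!
# Quartics with an integral point of size `M ^ 5`

The quartic
`2 x ^ 4 + (336 s + 340) x ^ 3 - (1480 s + 3130) x ^ 2 + (5600 s + 2175) x + 125 (s - 1)` takes at
`x = 256 s ^ 5 + 512 s ^ 4 + 16 s ^ 3 - 482 s ^ 2 - 271 s - 31` the value
`2 (s ^ 2 - 1) Z(s) ^ 2`, which is a square if `s ^ 2 - 1 = 2 k ^ 2`.
-/

set_option autoImplicit false

open Polynomial

namespace Pool.Agent.H574.HL

/-- the quartic -/
noncomputable def quartic (s : ℤ) : ℤ[X] :=
  C 2 * X ^ 4 + C (336 * s + 340) * X ^ 3 + C (-(1480 * s + 3130)) * X ^ 2 +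
    C (5600 * s + 2175) * X + C (125 * (s - 1))

/-- the abscissa of the point on the quartic -/
def quarticX (s : ℤ) : ℤ :=
  256 * s ^ 5 + 512 * s ^ 4 + 16 * s ^ 3 - 482 * s ^ 2 - 271 * s - 31

/-- the polynomial whose square divides the value -/
def quarticZ (s : ℤ) : ℤ :=
  65536 * s ^ 9 + 262144 * s ^ 8 + 303104 * s ^ 7 - 99328 * s ^ 6 - 450816 * s ^ 5 -
    260928 * s ^ 4 + 53348 * s ^ 3 + 94628 * s ^ 2 + 27889 * s + 2383

lemma quartic_identity (s : ℤ) :
    2 * quarticX s ^ 4 + (336 * s + 340) * quarticX s ^ 3 - (1480 * s + 3130) * quarticX s ^ 2 +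
      (5600 * s + 2175) * quarticX s + 125 * (s - 1) = 2 * (s ^ 2 - 1) * quarticZ s ^ 2 := by
  unfold quarticX quarticZ
  ring

lemma eval_quartic (s x : ℤ) : (quartic s).eval x = 2 * x ^ 4 + (336 * s + 340) * x ^ 3 -
    (1480 * s + 3130) * x ^ 2 + (5600 * s + 2175) * x + 125 * (s - 1) := by
  unfold quartic
  simp only [eval_add, eval_mul, eval_pow, eval_C, eval_X]
  ring

lemma coeff_quartic (s : ℤ) (n : ℕ) : (quartic s).coeff n =
    (if n = 4 then 2 else 0) + (if n = 3 then 336 * s + 340 else 0) +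
    (if n = 2 then -(1480 * s + 3130) else 0) + (if n = 1 then 5600 * s + 2175 else 0) +
      (if n = 0 then 125 * (s - 1) else 0) := by
  unfold quartic
  rw [coeff_add, coeff_add, coeff_add, coeff_add, coeff_C_mul, coeff_C_mul, coeff_C_mul,
    coeff_C_mul, coeff_X_pow, coeff_X_pow, coeff_X_pow, coeff_X, coeff_C]
  simp only [mul_ite, mul_one, mul_zero, eq_comm (a := 1) (b := n)]

lemma natDegree_quartic' (s : ℤ) : (quartic s).natDegree = 4 := by
  apply natDegree_eq_of_le_of_coeff_ne_zero
  · rw [natDegree_le_iff_coeff_eq_zero]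
    intro n hn
    rw [coeff_quartic, if_neg (by omega), if_neg (by omega), if_neg (by omega), if_neg (by omega),
      if_neg (by omega)]
    rfl
  · rw [coeff_quartic, if_pos rfl, if_neg (by omega), if_neg (by omega), if_neg (by omega),
      if_neg (by omega)]
    norm_num

lemma height_quartic {s : ℕ} (hs : 1 ≤ s) : height (quartic s) = 5600 * s + 2175 := by
  refine height_eq (n := 1) ?_ ?_ (by omega)
  · intro i
    rw [coeff_quartic]
    split_ifs <;> omega
  · rw [coeff_quartic]
    simp only [if_true]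
    norm_num
    omega

/-- the first polynomial of the pencil -/
noncomputable def A₄ : ℂ[X] :=
  C 2 * X ^ 4 + C 340 * X ^ 3 + C (-3130) * X ^ 2 + C 2175 * X + C (-125)

/-- the second polynomial of the pencil -/
noncomputable def B₄ : ℂ[X] :=
  C 336 * X ^ 3 + C (-1480) * X ^ 2 + C 5600 * X + C 125

lemma evalA₄ (α : ℂ) :
    A₄.eval α = 2 * α ^ 4 + 340 * α ^ 3 - 3130 * α ^ 2 + 2175 * α - 125 := by
  unfold A₄
  simp only [eval_add, eval_mul, eval_pow, eval_C, eval_X]
  ring

lemma evalB₄ (α : ℂ) : B₄.eval α = 336 * α ^ 3 - 1480 * α ^ 2 + 5600 * α + 125 := by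
  unfold B₄
  simp only [eval_add, eval_mul, eval_pow, eval_C, eval_X]
  ring

lemma evalA₄' : (derivative A₄).eval 0 = 2175 := by
  unfold A₄
  simp only [derivative_add, derivative_C_mul_X_pow, derivative_C_mul_X, derivative_C, eval_add,
    eval_mul, eval_pow, eval_C, eval_X, eval_zero]
  norm_num

lemma evalB₄' : (derivative B₄).eval 0 = 5600 := by
  unfold B₄
  simp only [derivative_add, derivative_C_mul_X_pow, derivative_C_mul_X, derivative_C, eval_add,
    eval_mul, eval_pow, eval_C, eval_X, eval_zero]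
  norm_num

lemma bad₄ : {t : ℂ | ∃ α, A₄.eval α + t * B₄.eval α = 0 ∧
      (derivative A₄).eval α + t * (derivative B₄).eval α = 0}.Finite := by
  apply finite_bad (c := 0)
  · intro α h h'
    rw [evalB₄] at h
    rw [evalA₄] at h'
    have : (1 : ℂ) = 0 := by
      linear_combination
        ((-23422972384/4118734180125) + (155016151168/102968354503125) * α +
          (-58061354624/171613924171875) * α ^ 2) * h' +
        ((9526901057/4118734180125) + (-326120045632/102968354503125) * α +
          (11747400568/34322784834375) * α ^ 2 + (1036809904/514841772515625) * α ^ 3) * h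
    exact one_ne_zero this
  · rw [eval_sub, eval_mul, eval_mul, evalA₄, evalB₄, evalA₄', evalB₄']
    norm_num

lemma map_quartic (s : ℕ) :
    (quartic s).map (Int.castRingHom ℂ) = A₄ + C (s : ℂ) * B₄ := by
  unfold quartic A₄ B₄
  simp only [Polynomial.map_add, Polynomial.map_mul, Polynomial.map_pow, map_C, map_X]
  simp only [map_mul, map_neg, map_one, map_ofNat, map_natCast, map_add, map_sub]
  ring

/-- the point is large -/
lemma large_quartic {s : ℤ} (hs : 2 ≤ s) :
    (5600 * s + 2175) ^ 5 ≤ 7775 ^ 5 * quarticX s := by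
  have h1 : s ^ 5 ≤ quarticX s := by
    unfold quarticX
    have e1 : (1 : ℤ) ≤ s := by linarith
    have p12 : s ^ 1 ≤ s ^ 4 := pow_le_pow_right₀ e1 (by norm_num)
    have p24 : s ^ 2 ≤ s ^ 4 := pow_le_pow_right₀ e1 (by norm_num)
    have p34 : 0 ≤ s ^ 3 := by positivity
    have p45 : 2 * s ^ 4 ≤ s ^ 5 := by
      have : 0 ≤ s ^ 4 := by positivity
      nlinarith
    nlinarith
  calc (5600 * s + 2175) ^ 5 ≤ (7775 * s) ^ 5 := by
        apply pow_le_pow_left₀ (by positivity)
        linarith
    _ = 7775 ^ 5 * s ^ 5 := by ring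
    _ ≤ 7775 ^ 5 * quarticX s := by linarith

lemma point_quartic {k s : ℤ} (h : s ^ 2 = 2 * k ^ 2 + 1) :
    (2 * k * quarticZ s) ^ 2 = (quartic s).eval (quarticX s) := by
  rw [eval_quartic, quartic_identity]
  linear_combination (-2 * quarticZ s ^ 2) * h

/-- the family of quartics -/
lemma family_quartic : Family 4 5 (7775 ^ 5) := by
  intro N
  have hinj : Function.Injective (fun r : ℕ => (r : ℂ)) := Nat.cast_injective
  have hfin := bad₄.preimage hinj.injOn
  obtain ⟨L, hL⟩ := hfin.bddAbove
  obtain ⟨k, s, h1, h2⟩ := pell (n := 2) (a₀ := 2) (b₀ := 3) (by norm_num) (by norm_num)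
    (N + L + 2)
  have hks : k ≤ s := by
    by_contra hlt
    push Not at hlt
    nlinarith
  have hsL : L < s := by omega
  have hsep : ((quartic s).map (Int.castRingHom ℚ)).Separable := by
    refine separable_of_notMem (map_quartic s) ?_
    intro hmem
    have := hL (show s ∈ (fun r : ℕ => (r : ℂ)) ⁻¹' _ from hmem)
    omega
  refine ⟨quartic s, natDegree_quartic' s, hsep, ?_, quarticX s, 2 * k * quarticZ s, ?_, ?_⟩
  · rw [height_quartic (by omega)]
    omega
  · exact point_quartic (by exact_mod_cast h1)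
  · rw [height_quartic (by omega)]
    push_cast
    refine large_quartic ?_
    have : 2 ≤ s := by omega
    exact_mod_cast this

end Pool.Agent.H574.HL
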